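import Pool.Agent.N554.TG.Stm

/-! TG/HAM (helper547 for helper554): pairs at Hamming distance exactly `t`. -/

set_option autoImplicit false

open Finset Pool.Agent.N554.TG

namespace Pool.Agent.N547.TG.Ham

variable {q N : ℕ}

/-- the coordinates where two words differ -/
def df (a b : Fin N → ZMod q) : Finset (Fin N) := univ.filter (fun i => a i ≠ b i)

/-- the zero coordinates -/
def zc (c : Fin N → ZMod q) : Finset (Fin N) := univ.filter (fun i => c i = 0)

/-- the number of sets with `j` elements which contain all the differing coordinates -/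
def W (j : ℕ) (a b : Fin N → ZMod q) : ℕ :=
  (((univ : Finset (Fin N)).powersetCard j).filter (fun J => df a b ⊆ J)).card

/-- pointwise inequality for the pairs -/
lemma W_le {t : ℕ} (ht : 1 ≤ t) (htN : t ≤ N) (a b : Fin N → ZMod q) :
    W t a b ≤ (if (df a b).card = t then 1 else 0) + (N - t + 1) * W (t - 1) a b := by
  classical
  by_cases h1 : t ≤ (df a b).card
  · by_cases h2 : (df a b).card = t
    · rw [if_pos h2]
      refine le_trans ?_ (Nat.le_add_right _ _)
      unfold W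
      rw [card_le_one]
      intro J hJ J' hJ'
      rw [mem_filter, mem_powersetCard] at hJ hJ'
      rw [← eq_of_subset_of_card_le hJ.2 (by rw [hJ.1.2, h2]),
        ← eq_of_subset_of_card_le hJ'.2 (by rw [hJ'.1.2, h2])]
    · have h3 : W t a b = 0 := by
        unfold W
        rw [card_eq_zero, filter_eq_empty_iff]
        intro J hJ hs
        have := card_le_card hs
        rw [(mem_powersetCard.1 hJ).2] at this
        omega
      rw [h3]
      exact Nat.zero_le _
  · push Not at h1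
    refine le_trans ?_ (Nat.le_add_left _ _)
    have hsub : ((univ : Finset (Fin N)).powersetCard t).filter (fun J => df a b ⊆ J) ⊆
        (((univ : Finset (Fin N)).powersetCard (t - 1)).filter (fun J => df a b ⊆ J)).biUnion
          (fun J' => (univ \ J').image (fun i => insert i J')) := by
      intro J hJ
      rw [mem_filter, mem_powersetCard] at hJ
      obtain ⟨i, hi, hi2⟩ := exists_mem_notMem_of_card_lt_card (s := df a b) (t := J)
        (by rw [hJ.1.2]; exact h1)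
      rw [mem_biUnion]
      refine ⟨J.erase i, ?_, ?_⟩
      · rw [mem_filter, mem_powersetCard]
        refine ⟨⟨subset_univ _, by rw [card_erase_of_mem hi, hJ.1.2]⟩, ?_⟩
        intro x hx
        rw [mem_erase]
        exact ⟨fun h => hi2 (h ▸ hx), hJ.2 hx⟩
      · rw [mem_image]
        exact ⟨i, by rw [mem_sdiff]; exact ⟨mem_univ _, notMem_erase _ _⟩, insert_erase hi⟩
    unfold W
    refine (card_le_card hsub).trans ?_
    rw [mul_comm]
    refine card_biUnion_le_card_mul _ _ _ fun J hJ => ?_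
    rw [mem_filter, mem_powersetCard] at hJ
    refine card_image_le.trans ?_
    rw [card_sdiff_of_subset (subset_univ _), card_univ, Fintype.card_fin, hJ.1.2]
    omega

/-- pointwise inequality for the characters -/
lemma bracket {t : ℕ} (ht : 1 ≤ t) (htN : t ≤ N) (h2 : 2 * t * N ≤ q) (X : ℕ) :
    (1 / 2 : ℝ) * (q : ℝ) ^ t * (X.choose t : ℝ) - (N : ℝ) * (q : ℝ) ^ (t - 1) ≤
      (q : ℝ) ^ t * (X.choose t : ℝ) -
        ((N - t + 1 : ℕ) : ℝ) * ((q : ℝ) ^ (t - 1) * (X.choose (t - 1) : ℝ)) := by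
  obtain ⟨s, rfl⟩ : ∃ s, t = s + 1 := ⟨t - 1, by omega⟩
  rw [Nat.add_sub_cancel]
  have hq : (0 : ℝ) ≤ (q : ℝ) ^ s := by positivity
  have hNt : ((N - (s + 1) + 1 : ℕ) : ℝ) ≤ N := by
    exact_mod_cast (by omega : N - (s + 1) + 1 ≤ N)
  have hN0 : (0 : ℝ) ≤ N := Nat.cast_nonneg _
  rcases lt_trichotomy X s with h | h | h
  · rw [Nat.choose_eq_zero_of_lt h, Nat.choose_eq_zero_of_lt (by omega : X < s + 1)]
    simp only [Nat.cast_zero, mul_zero, zero_sub, sub_zero]
    have := mul_nonneg hN0 hq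
    linarith
  · subst h
    rw [Nat.choose_self, Nat.choose_eq_zero_of_lt (by omega : X < X + 1)]
    simp only [Nat.cast_zero, mul_zero, zero_sub, Nat.cast_one, mul_one]
    have := mul_le_mul_of_nonneg_right hNt hq
    linarith
  · have h3 : X.choose s ≤ (s + 1) * X.choose (s + 1) := by
      have := Nat.choose_succ_right_eq X s
      rw [mul_comm (s + 1), this]
      exact Nat.le_mul_of_pos_right _ (by omega)
    have h3' : (X.choose s : ℝ) ≤ ((s + 1 : ℕ) : ℝ) * X.choose (s + 1) := by exact_mod_cast h3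
    have h2' : 2 * ((s + 1 : ℕ) : ℝ) * N ≤ q := by exact_mod_cast h2
    have hC : (0 : ℝ) ≤ X.choose (s + 1) := Nat.cast_nonneg _
    have h4 : ((N - (s + 1) + 1 : ℕ) : ℝ) * ((q : ℝ) ^ s * (X.choose s : ℝ)) ≤
        (1 / 2 : ℝ) * (q : ℝ) ^ (s + 1) * (X.choose (s + 1) : ℝ) := by
      calc ((N - (s + 1) + 1 : ℕ) : ℝ) * ((q : ℝ) ^ s * (X.choose s : ℝ)) ≤
          N * ((q : ℝ) ^ s * (((s + 1 : ℕ) : ℝ) * X.choose (s + 1))) := by
            refine mul_le_mul hNt (mul_le_mul_of_nonneg_left h3' hq) (by positivity) hN0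
        _ = (1 / 2) * (2 * ((s + 1 : ℕ) : ℝ) * N) * ((q : ℝ) ^ s * X.choose (s + 1)) := by ring
        _ ≤ (1 / 2) * q * ((q : ℝ) ^ s * X.choose (s + 1)) := by
            gcongr
        _ = _ := by rw [pow_succ]; ring
    have := mul_nonneg hN0 hq
    linarith

/-! ### Fourier analysis -/

variable [Fact q.Prime]

/-- the Fourier transform of a set -/
noncomputable def hat (S : Finset (Fin N → ZMod q)) (c : Fin N → ZMod q) : ℂ :=
  ∑ a ∈ S, ZMod.stdAddChar (∑ i, c i * a i)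

lemma psi_sum (f : Fin N → ZMod q) (s : Finset (Fin N)) :
    (ZMod.stdAddChar (∑ i ∈ s, f i) : ℂ) = ∏ i ∈ s, (ZMod.stdAddChar (f i) : ℂ) := by
  induction s using Finset.induction_on with
  | empty => simp
  | insert a s ha ih => rw [sum_insert ha, prod_insert ha, AddChar.map_add_eq_mul, ih]

lemma hat_sq (S : Finset (Fin N → ZMod q)) (c : Fin N → ZMod q) :
    ((‖hat S c‖ ^ 2 : ℝ) : ℂ) =
      ∑ a ∈ S, ∑ b ∈ S, ∏ i, (ZMod.stdAddChar (c i * (a i - b i)) : ℂ) := by
  have h1 : ((‖hat S c‖ ^ 2 : ℝ) : ℂ) = hat S c * (starRingEnd ℂ) (hat S c) := by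
    rw [Complex.mul_conj']
    push_cast
    ring
  rw [h1]
  unfold hat
  rw [map_sum, sum_mul_sum]
  refine sum_congr rfl fun a _ => sum_congr rfl fun b _ => ?_
  rw [← AddChar.map_neg_eq_conj, ← AddChar.map_add_eq_mul, ← psi_sum]
  congr 1
  rw [← sub_eq_add_neg, ← sum_sub_distrib]
  exact sum_congr rfl fun i _ => by ring

lemma sum_J (a b : Fin N → ZMod q) (J : Finset (Fin N)) :
    ∑ c ∈ Fintype.piFinset (fun i => if i ∈ J then ({0} : Finset (ZMod q)) else univ),
      ∏ i, (ZMod.stdAddChar (c i * (a i - b i)) : ℂ) =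
      if df a b ⊆ J then (q : ℂ) ^ (N - J.card) else 0 := by
  have h0 := Finset.prod_univ_sum (fun i : Fin N => if i ∈ J then ({0} : Finset (ZMod q)) else univ)
    (fun i x => (ZMod.stdAddChar (x * (a i - b i)) : ℂ))
  rw [← h0]
  have h1 : ∀ i, ∑ x ∈ (if i ∈ J then ({0} : Finset (ZMod q)) else univ),
      (ZMod.stdAddChar (x * (a i - b i)) : ℂ) =
      if i ∈ J then 1 else if a i = b i then (q : ℂ) else 0 := by
    intro i
    by_cases hi : i ∈ J
    · rw [if_pos hi, if_pos hi, sum_singleton, zero_mul, AddChar.map_zero_eq_one]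
    · rw [if_neg hi, if_neg hi,
        AddChar.sum_mulShift (a i - b i) (ZMod.isPrimitive_stdAddChar q), ZMod.card]
      by_cases h : a i = b i
      · rw [if_pos h, if_pos (sub_eq_zero.2 h)]
      · rw [if_neg h, if_neg (sub_ne_zero.2 h), Nat.cast_zero]
  rw [prod_congr rfl fun i _ => h1 i]
  split_ifs with h
  · have h2 : ∀ i, (if i ∈ J then (1 : ℂ) else if a i = b i then (q : ℂ) else 0) =
        if i ∈ J then 1 else (q : ℂ) := by
      intro i
      split_ifs with h3 h4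
      · rfl
      · rfl
      · exfalso
        apply h3
        apply h
        unfold df
        exact mem_filter.2 ⟨mem_univ _, h4⟩
    rw [prod_congr rfl fun i _ => h2 i, prod_ite]
    simp only [prod_const_one, prod_const, one_mul]
    congr 1
    have h3 : univ.filter (fun i => i ∉ J) = Jᶜ := by
      ext i
      simp
    rw [h3, card_compl, Fintype.card_fin]
  · rw [not_subset] at h
    obtain ⟨i, hi, hiJ⟩ := h
    refine prod_eq_zero (mem_univ i) ?_
    rw [if_neg hiJ, if_neg]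
    unfold df at hi
    exact (mem_filter.1 hi).2

/-- the main identity -/
lemma ident (S : Finset (Fin N → ZMod q)) (j : ℕ) :
    ∑ c : Fin N → ZMod q, ‖hat S c‖ ^ 2 * ((zc c).card.choose j : ℝ) =
      (q : ℝ) ^ (N - j) * ∑ a ∈ S, ∑ b ∈ S, (W j a b : ℝ) := by
  have h0 : ((∑ c : Fin N → ZMod q, ‖hat S c‖ ^ 2 * ((zc c).card.choose j : ℝ) : ℝ) : ℂ) =
      (((q : ℝ) ^ (N - j) * ∑ a ∈ S, ∑ b ∈ S, (W j a b : ℝ) : ℝ) : ℂ) := by
    have h1 : ∀ c : Fin N → ZMod q, ((‖hat S c‖ ^ 2 * ((zc c).card.choose j : ℝ) : ℝ) : ℂ) =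
        ∑ J ∈ (univ : Finset (Fin N)).powersetCard j,
          if J ⊆ zc c then ((‖hat S c‖ ^ 2 : ℝ) : ℂ) else 0 := by
      intro c
      rw [← sum_filter, sum_const, nsmul_eq_mul]
      have h2 : ((univ : Finset (Fin N)).powersetCard j).filter (fun J => J ⊆ zc c) =
          (zc c).powersetCard j := by
        ext J
        rw [mem_filter, mem_powersetCard, mem_powersetCard]
        constructor
        · rintro ⟨⟨-, h3⟩, h4⟩
          exact ⟨h4, h3⟩
        · rintro ⟨h3, h4⟩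
          exact ⟨⟨subset_univ _, h4⟩, h3⟩
      rw [h2, card_powersetCard]
      push_cast
      ring
    rw [Complex.ofReal_sum, sum_congr rfl fun c _ => h1 c, sum_comm]
    have h3 : ∀ J ∈ (univ : Finset (Fin N)).powersetCard j,
        ∑ c : Fin N → ZMod q, (if J ⊆ zc c then ((‖hat S c‖ ^ 2 : ℝ) : ℂ) else 0) =
        ∑ a ∈ S, ∑ b ∈ S, if df a b ⊆ J then (q : ℂ) ^ (N - j) else 0 := by
      intro J hJ
      rw [← sum_filter]
      have h4 : univ.filter (fun c : Fin N → ZMod q => J ⊆ zc c) =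
          Fintype.piFinset (fun i => if i ∈ J then ({0} : Finset (ZMod q)) else univ) := by
        ext c
        rw [mem_filter, Fintype.mem_piFinset]
        simp only [mem_univ, true_and]
        constructor
        · intro h i
          split_ifs with hi
          · rw [mem_singleton]
            exact (mem_filter.1 (h hi)).2
          · exact mem_univ _
        · intro h i hi
          have := h i
          rw [if_pos hi, mem_singleton] at this
          exact mem_filter.2 ⟨mem_univ _, this⟩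
      rw [h4, sum_congr rfl fun c _ => hat_sq S c, sum_comm]
      refine sum_congr rfl fun a _ => ?_
      rw [sum_comm]
      refine sum_congr rfl fun b _ => ?_
      rw [sum_J, (mem_powersetCard.1 hJ).2]
    rw [sum_congr rfl h3, sum_comm]
    push_cast
    rw [mul_sum]
    refine sum_congr rfl fun a _ => ?_
    rw [sum_comm, mul_sum]
    refine sum_congr rfl fun b _ => ?_
    rw [← sum_filter, sum_const, nsmul_eq_mul]
    unfold W
    ring
  exact_mod_cast h0

lemma W_zero (a b : Fin N → ZMod q) : W 0 a b = if a = b then 1 else 0 := by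
  unfold W
  rw [powersetCard_zero, filter_singleton]
  have : df a b ⊆ ∅ ↔ a = b := by
    rw [subset_empty]
    unfold df
    rw [filter_eq_empty_iff]
    constructor
    · intro h
      funext i
      have := h (mem_univ i)
      push Not at this
      exact this
    · rintro rfl i _ h
      exact h rfl
  simp only [this]
  split_ifs <;> rfl

theorem t_ham : S_HAM := by
  intro q N t _ ht htN h2 S
  have hq : (0 : ℝ) < q := by exact_mod_cast (Fact.out : q.Prime).pos
  set f : (Fin N → ZMod q) → ℝ := fun c => ‖hat S c‖ ^ 2 with hf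
  have hf0 : ∀ c, 0 ≤ f c := fun c => by positivity
  -- Parseval
  have hpars : ∑ c, f c = (q : ℝ) ^ N * S.card := by
    have h3 := ident S 0
    rw [Nat.sub_zero] at h3
    simp only [Nat.choose_zero_right, Nat.cast_one, mul_one, W_zero] at h3
    rw [h3]
    congr 1
    push_cast
    simp
  have hzero : f 0 = (S.card : ℝ) ^ 2 := by
    rw [hf]
    simp only
    have : hat S 0 = (S.card : ℂ) := by
      unfold hat
      simp
    rw [this]
    simp
  have hz0 : (zc (0 : Fin N → ZMod q)).card = N := by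
    unfold zc
    simp
  -- the number of pairs
  have hP : (((S ×ˢ S).filter
          (fun p => (univ.filter (fun i => p.1 i ≠ p.2 i)).card = t)).card : ℝ) =
      ∑ a ∈ S, ∑ b ∈ S, (if (df a b).card = t then 1 else 0 : ℝ) := by
    rw [card_filter, sum_product]
    push_cast
    rfl
  have hpair : ∑ a ∈ S, ∑ b ∈ S, (W t a b : ℝ) -
      ((N - t + 1 : ℕ) : ℝ) * ∑ a ∈ S, ∑ b ∈ S, (W (t - 1) a b : ℝ) ≤
      ∑ a ∈ S, ∑ b ∈ S, (if (df a b).card = t then 1 else 0 : ℝ) := by
    rw [mul_sum, ← sum_sub_distrib]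
    refine sum_le_sum fun a _ => ?_
    rw [mul_sum, ← sum_sub_distrib]
    refine sum_le_sum fun b _ => ?_
    have h3 := W_le ht htN a b
    have h4 : (W t a b : ℝ) ≤ (if (df a b).card = t then 1 else 0 : ℝ) +
        ((N - t + 1 : ℕ) : ℝ) * W (t - 1) a b := by
      have h5 : ((W t a b : ℕ) : ℝ) ≤ (((if (df a b).card = t then 1 else 0) +
        (N - t + 1) * W (t - 1) a b : ℕ) : ℝ) := by exact_mod_cast h3
      push_cast at h5 ⊢
      exact h5
    linarith
  rw [hP]
  refine le_trans ?_ hpair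
  -- the spectral side
  have i1 := ident S t
  have i2 := ident S (t - 1)
  have hqN : (0 : ℝ) < (q : ℝ) ^ N := by positivity
  have e1 : (q : ℝ) ^ N * ∑ a ∈ S, ∑ b ∈ S, (W t a b : ℝ) =
      (q : ℝ) ^ t * ∑ c, f c * ((zc c).card.choose t : ℝ) := by
    rw [i1, ← mul_assoc, ← pow_add]
    congr 2
    omega
  have e2 : (q : ℝ) ^ N * ∑ a ∈ S, ∑ b ∈ S, (W (t - 1) a b : ℝ) =
      (q : ℝ) ^ (t - 1) * ∑ c, f c * ((zc c).card.choose (t - 1) : ℝ) := by
    rw [i2, ← mul_assoc, ← pow_add]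
    congr 2
    omega
  have e3 : (q : ℝ) ^ N * (∑ a ∈ S, ∑ b ∈ S, (W t a b : ℝ) -
      ((N - t + 1 : ℕ) : ℝ) * ∑ a ∈ S, ∑ b ∈ S, (W (t - 1) a b : ℝ)) =
      ∑ c, f c * ((q : ℝ) ^ t * ((zc c).card.choose t : ℝ) -
        ((N - t + 1 : ℕ) : ℝ) * ((q : ℝ) ^ (t - 1) * ((zc c).card.choose (t - 1) : ℝ))) := by
    have : (q : ℝ) ^ N * (∑ a ∈ S, ∑ b ∈ S, (W t a b : ℝ) -
      ((N - t + 1 : ℕ) : ℝ) * ∑ a ∈ S, ∑ b ∈ S, (W (t - 1) a b : ℝ)) =
      (q : ℝ) ^ N * ∑ a ∈ S, ∑ b ∈ S, (W t a b : ℝ) -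
      ((N - t + 1 : ℕ) : ℝ) * ((q : ℝ) ^ N * ∑ a ∈ S, ∑ b ∈ S, (W (t - 1) a b : ℝ)) := by ring
    rw [this, e1, e2]
    simp only [mul_sum]
    rw [← sum_sub_distrib]
    exact sum_congr rfl fun c _ => by ring
  have e4 : ∑ c, f c * ((1 / 2 : ℝ) * (q : ℝ) ^ t * ((zc c).card.choose t : ℝ) -
      (N : ℝ) * (q : ℝ) ^ (t - 1)) ≤
      ∑ c, f c * ((q : ℝ) ^ t * ((zc c).card.choose t : ℝ) -
        ((N - t + 1 : ℕ) : ℝ) * ((q : ℝ) ^ (t - 1) * ((zc c).card.choose (t - 1) : ℝ))) :=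
    sum_le_sum fun c _ => mul_le_mul_of_nonneg_left (bracket ht htN h2 _) (hf0 c)
  have e5 : (1 / 2 : ℝ) * (q : ℝ) ^ t * (N.choose t : ℝ) * (S.card : ℝ) ^ 2 -
      (N : ℝ) * (q : ℝ) ^ (t - 1) * ((q : ℝ) ^ N * S.card) ≤
      ∑ c, f c * ((1 / 2 : ℝ) * (q : ℝ) ^ t * ((zc c).card.choose t : ℝ) -
      (N : ℝ) * (q : ℝ) ^ (t - 1)) := by
    have e6 : ∑ c, f c * ((1 / 2 : ℝ) * (q : ℝ) ^ t * ((zc c).card.choose t : ℝ) -
        (N : ℝ) * (q : ℝ) ^ (t - 1)) =
        (1 / 2 : ℝ) * (q : ℝ) ^ t * ∑ c, f c * ((zc c).card.choose t : ℝ) -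
        (N : ℝ) * (q : ℝ) ^ (t - 1) * ∑ c, f c := by
      rw [mul_sum, mul_sum, ← sum_sub_distrib]
      exact sum_congr rfl fun c _ => by ring
    rw [e6, hpars]
    have e7 : f 0 * ((zc (0 : Fin N → ZMod q)).card.choose t : ℝ) ≤
        ∑ c, f c * ((zc c).card.choose t : ℝ) :=
      single_le_sum (f := fun c => f c * ((zc c).card.choose t : ℝ))
        (fun c _ => mul_nonneg (hf0 c) (Nat.cast_nonneg _)) (mem_univ 0)
    rw [hzero, hz0] at e7
    have e8 : (0 : ℝ) ≤ (1 / 2 : ℝ) * (q : ℝ) ^ t := by positivity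
    have e9 := mul_le_mul_of_nonneg_left e7 e8
    linarith
  have e10 := e5.trans (e4.trans (le_of_eq e3.symm))
  rw [← sub_nonneg]
  have e11 : 0 ≤ (q : ℝ) ^ N * (∑ a ∈ S, ∑ b ∈ S, (W t a b : ℝ) -
      ((N - t + 1 : ℕ) : ℝ) * ∑ a ∈ S, ∑ b ∈ S, (W (t - 1) a b : ℝ) -
      ((1 / 2 : ℝ) * (q : ℝ) ^ t * (N.choose t : ℝ) * (S.card : ℝ) ^ 2 / (q : ℝ) ^ N
        - (N : ℝ) * (q : ℝ) ^ (t - 1) * (S.card : ℝ))) := by
    have e12 : (q : ℝ) ^ N * ((1 / 2 : ℝ) * (q : ℝ) ^ t * (N.choose t : ℝ) * (S.card : ℝ) ^ 2 /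
        (q : ℝ) ^ N - (N : ℝ) * (q : ℝ) ^ (t - 1) * (S.card : ℝ)) =
        (1 / 2 : ℝ) * (q : ℝ) ^ t * (N.choose t : ℝ) * (S.card : ℝ) ^ 2 -
        (N : ℝ) * (q : ℝ) ^ (t - 1) * ((q : ℝ) ^ N * S.card) := by
      field_simp
    rw [mul_sub, e12]
    linarith
  exact nonneg_of_mul_nonneg_right e11 hqN

end Pool.Agent.N547.TG.Ham
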