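import Pool.Agent.N554.TG.Stm

/-! TG/LIFT (helper547 for helper554): many adjacent pairs in every large set of words. -/

set_option autoImplicit false

open Finset Pool.Agent.N554.TG

namespace Pool.Agent.N547.TG.Lift

variable {q k N : ℕ} [Fact q.Prime]

/-- the word with blocks `a i • m (R i)` -/
def am (m : Finset (ZMod q) → (Fin k → ZMod q)) (R : Fin N → Finset (ZMod q))
    (a : Fin N → ZMod q) : G q k N := fun i => a i • m (R i)

/-- the fibre of `A` over `g` -/
def SR (m : Finset (ZMod q) → (Fin k → ZMod q)) (R : Fin N → Finset (ZMod q))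
    (A : Finset (G q k N)) (g : G q k N) : Finset (Fin N → ZMod q) :=
  univ.filter (fun a => g + am m R a ∈ A)

/-- the pairs of elements of `A` which belong to `R` -/
def cond (t : ℕ) (R : Fin N → Finset (ZMod q)) (A : Finset (G q k N)) :
    Finset (G q k N × G q k N) :=
  (A ×ˢ A).filter (fun p => (dif p.1 p.2).card = t ∧ ∀ i ∈ dif p.1 p.2,
    zeros (p.1 i - p.2 i) = R i)

lemma sum_SR (m : Finset (ZMod q) → (Fin k → ZMod q)) (R : Fin N → Finset (ZMod q))
    (A : Finset (G q k N)) : ∑ g : G q k N, (SR m R A g).card = q ^ N * A.card := by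
  unfold SR
  simp only [card_filter]
  rw [sum_comm]
  have h : ∀ a : Fin N → ZMod q,
      ∑ g : G q k N, (if g + am m R a ∈ A then 1 else 0) = A.card := by
    intro a
    refine (Fintype.sum_equiv (Equiv.addRight (am m R a)) _
      (fun g : G q k N => if g ∈ A then 1 else 0) (fun g => rfl)).trans ?_
    simp
  rw [sum_congr rfl fun a _ => h a, sum_const, smul_eq_mul, card_univ, Fintype.card_pi]
  simp [ZMod.card]

lemma card_G : Fintype.card (G q k N) = q ^ (k * N) := by
  unfold G
  rw [Fintype.card_pi]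
  simp only [Fintype.card_pi, ZMod.card, prod_const, card_univ, Fintype.card_fin]
  rw [pow_mul]

lemma sum_P_le (hk : 1 ≤ k) (hkq : k ≤ q) (m : Finset (ZMod q) → (Fin k → ZMod q))
    (hm : ∀ R : Finset (ZMod q), R.card = k - 1 → ∀ a : ZMod q, a ≠ 0 → zeros (a • m R) = R)
    (R : Fin N → Finset (ZMod q)) (hR : ∀ i, (R i).card = k - 1) (t : ℕ)
    (A : Finset (G q k N)) :
    ∑ g : G q k N, (((SR m R A g) ×ˢ (SR m R A g)).filter
      (fun p => (univ.filter (fun i => p.1 i ≠ p.2 i)).card = t)).card ≤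
      q ^ N * (cond t R A).card := by
  classical
  have hne : ∀ i, m (R i) ≠ 0 := by
    intro i h0
    have h1 := hm (R i) (hR i) 1 one_ne_zero
    rw [h0, smul_zero] at h1
    have h2 : zeros (0 : Fin k → ZMod q) = univ := by
      unfold zeros
      rw [filter_true_of_mem]
      intro w _
      unfold ev
      simp
    rw [h2] at h1
    have h3 := hR i
    rw [← h1, card_univ, ZMod.card] at h3
    omega
  have hinj : ∀ i (a b : ZMod q), a • m (R i) = b • m (R i) → a = b := fun i a b h =>
    smul_left_injective _ (hne i) h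
  rw [← card_sigma]
  have hc : q ^ N * (cond t R A).card =
      ((univ : Finset (Fin N → ZMod q)) ×ˢ cond t R A).card := by
    rw [card_product, card_univ, Fintype.card_pi]
    simp [ZMod.card]
  rw [hc]
  refine card_le_card_of_injOn
    (fun x => (x.2.1, (x.1 + am m R x.2.1, x.1 + am m R x.2.2))) ?_ ?_
  · rintro ⟨g, a, b⟩ hx
    rw [mem_coe, mem_sigma, mem_filter, mem_product] at hx
    obtain ⟨-, ⟨ha, hb⟩, ht⟩ := hx
    simp only at ha hb ht
    unfold SR at ha hb
    rw [mem_filter] at ha hb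
    have hdif : dif (g + am m R a) (g + am m R b) = univ.filter (fun i => a i ≠ b i) := by
      unfold dif
      ext i
      rw [mem_filter, mem_filter]
      refine and_congr_right fun _ => not_congr ?_
      constructor
      · intro h
        apply hinj i
        have h2 : g i + a i • m (R i) = g i + b i • m (R i) := h
        exact add_left_cancel h2
      · intro h
        change g i + a i • m (R i) = g i + b i • m (R i)
        rw [h]
    rw [mem_coe, mem_product]
    refine ⟨mem_univ _, ?_⟩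
    unfold cond
    rw [mem_filter, mem_product]
    refine ⟨⟨ha.2, hb.2⟩, ?_⟩
    simp only
    rw [hdif]
    refine ⟨ht, ?_⟩
    intro i hi
    have hi' := (mem_filter.1 hi).2
    have : (g + am m R a) i - (g + am m R b) i = (a i - b i) • m (R i) := by
      change (g i + a i • m (R i)) - (g i + b i • m (R i)) = _
      rw [add_sub_add_left_eq_sub, sub_smul]
    rw [this]
    exact hm _ (hR i) _ (sub_ne_zero.2 hi')
  · rintro ⟨g, a, b⟩ _ ⟨g', a', b'⟩ _ h
    simp only [Prod.mk.injEq] at h
    obtain ⟨h1, h2, h3⟩ := h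
    subst h1
    have h4 : g = g' := add_right_cancel h2
    subst h4
    have h5 : am m R b = am m R b' := add_left_cancel h3
    have h6 : b = b' := by
      funext i
      exact hinj i _ _ (congrFun h5 i)
    subst h6
    rfl

lemma sum_cond (t : ℕ) (A : Finset (G q k N)) :
    ∑ R ∈ Fintype.piFinset (fun _ : Fin N => (univ : Finset (ZMod q)).powersetCard (k - 1)),
      (cond t R A).card ≤
      (q.choose (k - 1)) ^ (N - t) * ((A ×ˢ A).filter (fun p => adj t p.1 p.2)).card := by
  classical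
  unfold cond
  simp only [card_filter]
  rw [sum_comm, mul_sum]
  refine sum_le_sum fun p _ => ?_
  rw [← card_filter]
  by_cases hadj : adj t p.1 p.2
  · rw [if_pos hadj, mul_one]
    have hsub : (Fintype.piFinset
        (fun _ : Fin N => (univ : Finset (ZMod q)).powersetCard (k - 1))).filter
        (fun R => (dif p.1 p.2).card = t ∧ ∀ i ∈ dif p.1 p.2, zeros (p.1 i - p.2 i) = R i) ⊆
        Fintype.piFinset (fun i : Fin N => if i ∈ dif p.1 p.2 then {zeros (p.1 i - p.2 i)} else
          (univ : Finset (ZMod q)).powersetCard (k - 1)) := by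
      intro R hR
      rw [mem_filter, Fintype.mem_piFinset] at hR
      rw [Fintype.mem_piFinset]
      intro i
      split_ifs with hi
      · rw [mem_singleton]
        exact (hR.2.2 i hi).symm
      · exact hR.1 i
    refine (card_le_card hsub).trans (le_of_eq ?_)
    rw [Fintype.card_piFinset]
    have h1 : ∀ i, (if i ∈ dif p.1 p.2 then ({zeros (p.1 i - p.2 i)} : Finset (Finset (ZMod q)))
        else (univ : Finset (ZMod q)).powersetCard (k - 1)).card =
        if i ∈ dif p.1 p.2 then 1 else q.choose (k - 1) := by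
      intro i
      split_ifs
      · rw [card_singleton]
      · rw [card_powersetCard, card_univ, ZMod.card]
    rw [prod_congr rfl fun i _ => h1 i, prod_ite]
    simp only [prod_const_one, prod_const, one_mul]
    congr 1
    have h3 : univ.filter (fun i => i ∉ dif p.1 p.2) = (dif p.1 p.2)ᶜ := by
      ext i
      simp
    rw [h3, card_compl, Fintype.card_fin, hadj.1]
  · rw [if_neg hadj, mul_zero, Nat.le_zero, card_eq_zero, filter_eq_empty_iff]
    rintro R hR ⟨h1, h2⟩
    apply hadj
    refine ⟨h1, fun i hi => ?_⟩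
    rw [h2 i hi]
    rw [Fintype.mem_piFinset] at hR
    exact (mem_powersetCard.1 (hR i)).2

theorem t_lift (h1 : S_HAM) (h2 : S_RS) : S_LIFT := by
  intro q k N t _ hk hkq ht htN hq2 A
  obtain ⟨m, hm⟩ := (h2 q k hk hkq).2
  have hq : (0 : ℝ) < q := by exact_mod_cast (Fact.out : q.Prime).pos
  set B : ℝ := (1 / 2 : ℝ) * (q : ℝ) ^ t * (N.choose t : ℝ) * (A.card : ℝ) ^ 2 / (q : ℝ) ^ (k * N)
        - (N : ℝ) * (q : ℝ) ^ (t - 1) * (A.card : ℝ) with hB
  have hqN : (0 : ℝ) < (q : ℝ) ^ N := by positivity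
  have hqkN : (0 : ℝ) < (q : ℝ) ^ (k * N) := by positivity
  -- for every choice of the zeros
  have key : ∀ R ∈ Fintype.piFinset
      (fun _ : Fin N => (univ : Finset (ZMod q)).powersetCard (k - 1)),
      B ≤ ((cond t R A).card : ℝ) := by
    intro R hR
    rw [Fintype.mem_piFinset] at hR
    have hR' : ∀ i, (R i).card = k - 1 := fun i => (mem_powersetCard.1 (hR i)).2
    have hs : ∑ g : G q k N, ((SR m R A g).card : ℝ) = (q : ℝ) ^ N * A.card := by
      exact_mod_cast sum_SR m R A
    have hcs : ((q : ℝ) ^ N * A.card) ^ 2 ≤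
        (q : ℝ) ^ (k * N) * ∑ g : G q k N, ((SR m R A g).card : ℝ) ^ 2 := by
      have := sq_sum_le_card_mul_sum_sq (s := (univ : Finset (G q k N)))
        (f := fun g => ((SR m R A g).card : ℝ))
      rw [hs, card_univ, card_G] at this
      push_cast at this
      exact this
    have hP : ∑ g : G q k N, ((1 / 2 : ℝ) * (q : ℝ) ^ t * (N.choose t : ℝ) *
        ((SR m R A g).card : ℝ) ^ 2 / (q : ℝ) ^ N
        - (N : ℝ) * (q : ℝ) ^ (t - 1) * ((SR m R A g).card : ℝ)) ≤
        (q : ℝ) ^ N * ((cond t R A).card : ℝ) := by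
      have h3 : ∑ g : G q k N, ((((SR m R A g) ×ˢ (SR m R A g)).filter
          (fun p => (univ.filter (fun i => p.1 i ≠ p.2 i)).card = t)).card : ℝ) ≤
          (q : ℝ) ^ N * ((cond t R A).card : ℝ) := by
        exact_mod_cast sum_P_le hk hkq m hm R hR' t A
      exact (sum_le_sum fun g _ => h1 q N t ht htN hq2 (SR m R A g)).trans h3
    have hE : ∑ g : G q k N, ((1 / 2 : ℝ) * (q : ℝ) ^ t * (N.choose t : ℝ) *
        ((SR m R A g).card : ℝ) ^ 2 / (q : ℝ) ^ N
        - (N : ℝ) * (q : ℝ) ^ (t - 1) * ((SR m R A g).card : ℝ)) =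
        (1 / 2 : ℝ) * (q : ℝ) ^ t * (N.choose t : ℝ) / (q : ℝ) ^ N *
          (∑ g : G q k N, ((SR m R A g).card : ℝ) ^ 2) -
          (N : ℝ) * (q : ℝ) ^ (t - 1) * ((q : ℝ) ^ N * A.card) := by
      rw [sum_sub_distrib, ← hs, mul_sum, mul_sum]
      congr 1
      refine sum_congr rfl fun g _ => ?_
      ring
    rw [hE] at hP
    have hcs' : ((q : ℝ) ^ N * A.card) ^ 2 / (q : ℝ) ^ (k * N) ≤
        ∑ g : G q k N, ((SR m R A g).card : ℝ) ^ 2 := by
      rw [div_le_iff₀ hqkN]
      linarith
    have hco : (0 : ℝ) ≤ (1 / 2 : ℝ) * (q : ℝ) ^ t * (N.choose t : ℝ) / (q : ℝ) ^ N := by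
      positivity
    have h4 := mul_le_mul_of_nonneg_left hcs' hco
    have h5 : (q : ℝ) ^ N * B = (1 / 2 : ℝ) * (q : ℝ) ^ t * (N.choose t : ℝ) / (q : ℝ) ^ N *
        (((q : ℝ) ^ N * A.card) ^ 2 / (q : ℝ) ^ (k * N)) -
        (N : ℝ) * (q : ℝ) ^ (t - 1) * ((q : ℝ) ^ N * A.card) := by
      rw [hB]
      field_simp
    have h6 : (q : ℝ) ^ N * B ≤ (q : ℝ) ^ N * ((cond t R A).card : ℝ) := by
      rw [h5]
      linarith
    exact le_of_mul_le_mul_left h6 hqN
  -- sum over the choices
  have hcard : ((Fintype.piFinset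
      (fun _ : Fin N => (univ : Finset (ZMod q)).powersetCard (k - 1))).card : ℝ) =
      ((q.choose (k - 1) : ℕ) : ℝ) ^ N := by
    rw [Fintype.card_piFinset]
    simp only [card_powersetCard, card_univ, ZMod.card, prod_const, Fintype.card_fin]
    push_cast
    rfl
  have hsum : ((q.choose (k - 1) : ℕ) : ℝ) ^ N * B ≤
      ((q.choose (k - 1) : ℕ) : ℝ) ^ (N - t) *
        (((A ×ˢ A).filter (fun p => adj t p.1 p.2)).card : ℝ) := by
    have h7 : ∑ R ∈ Fintype.piFinset
        (fun _ : Fin N => (univ : Finset (ZMod q)).powersetCard (k - 1)),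
        ((cond t R A).card : ℝ) ≤ ((q.choose (k - 1) : ℕ) : ℝ) ^ (N - t) *
        (((A ×ˢ A).filter (fun p => adj t p.1 p.2)).card : ℝ) := by
      exact_mod_cast sum_cond t A
    refine le_trans ?_ h7
    rw [← hcard, ← nsmul_eq_mul]
    exact card_nsmul_le_sum _ _ _ key
  have hC : (0 : ℝ) < ((q.choose (k - 1) : ℕ) : ℝ) := by
    exact_mod_cast Nat.choose_pos (by omega : k - 1 ≤ q)
  have hCN : (0 : ℝ) < ((q.choose (k - 1) : ℕ) : ℝ) ^ (N - t) := by positivity
  have h8 : ((q.choose (k - 1) : ℕ) : ℝ) ^ N =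
      ((q.choose (k - 1) : ℕ) : ℝ) ^ (N - t) * ((q.choose (k - 1) : ℕ) : ℝ) ^ t := by
    rw [← pow_add]
    congr 1
    omega
  rw [h8, mul_assoc] at hsum
  exact le_of_mul_le_mul_left hsum hCN

end Pool.Agent.N547.TG.Lift
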