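import Pool.Agent.N554.TG.Stm

/-! TG/NUM (helper547 for helper554). -/

set_option autoImplicit false

open Finset Pool.Agent.N554.TG

namespace Pool.Agent.N547.TG

lemma five (w : ℕ) (hw : 60 ≤ w) : 1152 * w ^ 5 ≤ 2 ^ (w - 1) := by
  induction w, hw using Nat.le_induction with
  | base => norm_num
  | succ w hw ih =>
    have h1 : (w + 1) ^ 5 ≤ 2 * w ^ 5 := by
      have h2 : (w + 1) ^ 5 ≤ w ^ 5 + 31 * w ^ 4 := by
        have e : (w + 1) ^ 5 = w ^ 5 + 5 * w ^ 4 + 10 * w ^ 3 + 10 * w ^ 2 + 5 * w + 1 := by ring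
        have a3 : w ^ 3 ≤ w ^ 4 := Nat.pow_le_pow_right (by omega) (by omega)
        have a2 : w ^ 2 ≤ w ^ 4 := Nat.pow_le_pow_right (by omega) (by omega)
        have a1 : w ≤ w ^ 4 := by
          calc w = w ^ 1 := (pow_one w).symm
            _ ≤ _ := Nat.pow_le_pow_right (by omega) (by omega)
        have a0 : 1 ≤ w ^ 4 := Nat.one_le_pow _ _ (by omega)
        omega
      have h3 : 31 * w ^ 4 ≤ w ^ 5 := by
        have : w ^ 5 = w * w ^ 4 := by ring
        rw [this]
        exact Nat.mul_le_mul_right _ (by omega)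
      omega
    have h4 : 2 ^ (w + 1 - 1) = 2 * 2 ^ (w - 1) := by
      rw [← pow_succ']
      congr 1
      omega
    rw [h4]
    calc 1152 * (w + 1) ^ 5 ≤ 1152 * (2 * w ^ 5) := Nat.mul_le_mul_left _ h1
      _ = 2 * (1152 * w ^ 5) := by ring
      _ ≤ _ := Nat.mul_le_mul_left _ ih

theorem t_num : S_NUM := by
  intro κ q k N w hκ hk hq hN hw
  have hk8 : 8 ≤ k := by omega
  have hk0 : 0 < k := by omega
  have hk3 : k ^ 3 ≤ q := (Nat.pow_le_pow_right hk0 (by omega)).trans hq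
  have hk2 : 8 * k ^ 2 ≤ k ^ 3 := by
    have : k ^ 3 = k * k ^ 2 := by ring
    rw [this]
    exact Nat.mul_le_mul_right _ hk8
  have hq0 : 0 < q := lt_of_lt_of_le (by positivity) hk3
  have hN1 : 2 * k * N ≤ q := by
    rw [hN]
    exact Nat.mul_div_le q (2 * k)
  have hN2 : q < 2 * k * (N + 1) := by
    rw [hN]
    exact Nat.lt_mul_div_succ q (by omega)
  have hN3 : 2 * k ≤ N := by
    rw [hN, Nat.le_div_iff_mul_le (by omega)]
    nlinarith
  have hNq : N ≤ q := by
    calc N ≤ 2 * k * N := Nat.le_mul_of_pos_left _ (by omega)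
      _ ≤ q := hN1
  have hqw : q ≤ 2 ^ w := by
    rw [hw]
    exact Nat.le_pow_clog (by norm_num) q
  have h2k : 2 ^ (3 * (4 * k)) ≤ q := by
    calc 2 ^ (3 * (4 * k)) = 8 ^ (4 * k) := by rw [pow_mul]; norm_num
      _ ≤ k ^ (4 * k) := Nat.pow_le_pow_left hk8 _
      _ ≤ q := hq
  have hwk : 3 * (4 * k) ≤ w := by
    have := h2k.trans hqw
    exact (Nat.pow_le_pow_iff_right (by norm_num)).1 this
  have hw1 : 2 ^ (w - 1) < q := by
    rw [hw]
    exact Nat.pow_pred_clog_lt_self (by norm_num) (lt_of_lt_of_le (by nlinarith) hk3)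
  have hw5 : 1152 * w ^ 5 ≤ q := (five w (by omega)).trans hw1.le
  -- the polynomial factor
  have hpoly : 288 * (w ^ 2 * (k + 1) ^ 2 * k) ≤ q := by
    refine le_trans ?_ hw5
    have h1 : k + 1 ≤ 2 * w := by omega
    calc 288 * (w ^ 2 * (k + 1) ^ 2 * k) ≤ 288 * (w ^ 2 * (2 * w) ^ 2 * w) := by
          gcongr
          omega
      _ = 1152 * w ^ 5 := by ring
  have hpoly2 : 24 * (8 + w * (k + 1) * k) ≤ q := by
    refine le_trans ?_ hpoly
    have h1 : 1 ≤ w * (k + 1) * k := Nat.mul_pos (Nat.mul_pos (by omega) (by omega)) hk0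
    have h2 : w * (k + 1) * k ≤ w ^ 2 * (k + 1) ^ 2 * k := by
      have : w ^ 2 * (k + 1) ^ 2 * k = (w * (k + 1)) * (w * (k + 1) * k) := by ring
      rw [this]
      exact Nat.le_mul_of_pos_left _ (Nat.mul_pos (by omega) (by omega))
    omega
  -- binomial coefficients
  have hC1 : q ^ k ≤ (8 * k ^ 2) ^ k * N.choose k := by
    have h1 : (N + 1 - k) ^ k ≤ k.factorial * N.choose k := by
      rw [← Nat.descFactorial_eq_factorial_mul_choose]
      exact Nat.pow_sub_le_descFactorial N k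
    have h2 : k.factorial ≤ k ^ k := Nat.factorial_le_pow k
    have h3 : q ≤ 8 * k * (N + 1 - k) := by
      have h4 : N ≤ 2 * (N + 1 - k) := by omega
      have h5 : 2 * k * (N + 1) ≤ 4 * k * N := by nlinarith
      calc q ≤ 4 * k * N := by omega
        _ ≤ 4 * k * (2 * (N + 1 - k)) := Nat.mul_le_mul_left _ h4
        _ = _ := by ring
    calc q ^ k ≤ (8 * k * (N + 1 - k)) ^ k := Nat.pow_le_pow_left h3 _
      _ = (8 * k) ^ k * (N + 1 - k) ^ k := mul_pow _ _ _
      _ ≤ (8 * k) ^ k * (k ^ k * N.choose k) := by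
          refine Nat.mul_le_mul_left _ (h1.trans ?_)
          exact Nat.mul_le_mul_right _ h2
      _ = _ := by
          rw [← mul_assoc, ← mul_pow]
          congr 2
          ring
  have ha' : 384 * (8 * k ^ 2) ^ k ≤ q ^ (2 * κ) := by
    have h1 : (8 * k ^ 2) ^ k ≤ k ^ (3 * k) := by
      rw [pow_mul]
      exact Nat.pow_le_pow_left hk2 _
    calc 384 * (8 * k ^ 2) ^ k ≤ k ^ 3 * k ^ (3 * k) := by
          refine Nat.mul_le_mul ?_ h1
          calc 384 ≤ 8 ^ 3 := by norm_num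
            _ ≤ k ^ 3 := Nat.pow_le_pow_left hk8 _
      _ = k ^ (3 + 3 * k) := (pow_add _ _ _).symm
      _ ≤ k ^ (4 * k) := Nat.pow_le_pow_right hk0 (by omega)
      _ ≤ q := hq
      _ = q ^ 1 := (pow_one q).symm
      _ ≤ _ := Nat.pow_le_pow_right hq0 (by omega)
  have ha : 384 * q ^ (2 * κ) ≤ N.choose k := by
    have h1 : (8 * k ^ 2) ^ k * (384 * q ^ (2 * κ)) ≤ (8 * k ^ 2) ^ k * N.choose k := by
      refine le_trans ?_ hC1
      calc (8 * k ^ 2) ^ k * (384 * q ^ (2 * κ)) = (384 * (8 * k ^ 2) ^ k) * q ^ (2 * κ) := by ring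
        _ ≤ q ^ (2 * κ) * q ^ (2 * κ) := Nat.mul_le_mul_right _ ha'
        _ = q ^ k := by
            rw [← pow_add, hk]
            congr 1
            ring
    exact Nat.le_of_mul_le_mul_left h1 (by positivity)
  have hCC : N.choose (k - 1) ≤ N.choose k := by
    have := Nat.choose_le_succ_of_lt_half_left (r := k - 1) (n := N) (by omega)
    rwa [show k - 1 + 1 = k by omega] at this
  have hCq : q ^ (k * (k - 1)) ≤ (2 * k) ^ (k * (k - 1)) * q.choose (k - 1) ^ k := by
    have h1 : (q + 1 - (k - 1)) ^ (k - 1) ≤ (k - 1).factorial * q.choose (k - 1) := by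
      rw [← Nat.descFactorial_eq_factorial_mul_choose]
      exact Nat.pow_sub_le_descFactorial q (k - 1)
    have h2 : (k - 1).factorial ≤ k ^ (k - 1) :=
      (Nat.factorial_le_pow (k - 1)).trans (Nat.pow_le_pow_left (by omega) _)
    have hkq : 2 * k ≤ q := hN3.trans hNq
    have h3 : q ≤ 2 * (q + 1 - (k - 1)) := by omega
    have h4 : q ^ (k - 1) ≤ (2 * k) ^ (k - 1) * q.choose (k - 1) := by
      calc q ^ (k - 1) ≤ (2 * (q + 1 - (k - 1))) ^ (k - 1) := Nat.pow_le_pow_left h3 _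
        _ = 2 ^ (k - 1) * (q + 1 - (k - 1)) ^ (k - 1) := mul_pow _ _ _
        _ ≤ 2 ^ (k - 1) * (k ^ (k - 1) * q.choose (k - 1)) :=
            Nat.mul_le_mul_left _ (h1.trans (Nat.mul_le_mul_right _ h2))
        _ = _ := by rw [mul_pow]; ring
    calc q ^ (k * (k - 1)) = (q ^ (k - 1)) ^ k := by rw [← pow_mul]; congr 1; ring
      _ ≤ ((2 * k) ^ (k - 1) * q.choose (k - 1)) ^ k := Nat.pow_le_pow_left h4 _
      _ = _ := by
          rw [mul_pow, ← pow_mul]
          congr 2
          ring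
  have h2kk : (2 * k) ^ (k * (k - 1)) ≤ q ^ (2 * κ - 1) := by
    have h1 : 2 ^ (k - 1) ≤ k ^ (k - 3) := by
      calc 2 ^ (k - 1) ≤ 2 ^ (3 * (k - 3)) := Nat.pow_le_pow_right (by norm_num) (by omega)
        _ = 8 ^ (k - 3) := by rw [pow_mul]; norm_num
        _ ≤ _ := Nat.pow_le_pow_left hk8 _
    calc (2 * k) ^ (k * (k - 1)) = (2 ^ (k - 1)) ^ k * k ^ (k * (k - 1)) := by
          rw [mul_pow, ← pow_mul]
          congr 2
          ring
      _ ≤ (k ^ (k - 3)) ^ k * k ^ (k * (k - 1)) :=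
          Nat.mul_le_mul_right _ (Nat.pow_le_pow_left h1 _)
      _ = (k ^ (4 * k)) ^ (2 * κ - 1) := by
          rw [← pow_mul, ← pow_mul, ← pow_add]
          congr 1
          obtain ⟨l, rfl⟩ : ∃ l, κ = l + 1 := ⟨κ - 1, by omega⟩
          subst hk
          have e1 : 4 * (l + 1) - 3 = 4 * l + 1 := by omega
          have e2 : 4 * (l + 1) - 1 = 4 * l + 3 := by omega
          have e3 : 2 * (l + 1) - 1 = 2 * l + 1 := by omega
          rw [e1, e2, e3]
          ring
      _ ≤ _ := Nat.pow_le_pow_left hq _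
  have hqs : q ^ (2 * κ - 1) * q = q ^ (2 * κ) := by
    rw [← pow_succ]
    congr 1
    omega
  refine ⟨hN1, hN3, hqw, ?_, ?_, ?_, ?_, ?_⟩
  · calc 384 * N * q ^ (2 * κ) = N * (384 * q ^ (2 * κ)) := by ring
      _ ≤ q * N.choose k := Nat.mul_le_mul hNq ha
  · calc 288 * (N.choose (k - 1) * q ^ (k * (k - 1))) * (w ^ 2 * (k + 1) ^ 2 * k) * q ^ (2 * κ) =
        N.choose (k - 1) * q ^ (k * (k - 1)) * (288 * (w ^ 2 * (k + 1) ^ 2 * k)) * q ^ (2 * κ) := by
          ring
      _ ≤ N.choose k * ((2 * k) ^ (k * (k - 1)) * q.choose (k - 1) ^ k) * q * q ^ (2 * κ) := by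
          gcongr
      _ ≤ N.choose k * (q ^ (2 * κ - 1) * q.choose (k - 1) ^ k) * q * q ^ (2 * κ) := by
          gcongr
      _ = q.choose (k - 1) ^ k * ((q ^ (2 * κ - 1) * q) * q ^ (2 * κ)) * N.choose k := by ring
      _ = _ := by
          rw [hqs, ← pow_add]
          congr 3
          omega
  · calc 24 * (N.choose (k - 1) * q ^ (k * (k - 1))) * (8 + w * (k + 1) * k) * q ^ (2 * κ) =
        N.choose (k - 1) * q ^ (k * (k - 1)) * (24 * (8 + w * (k + 1) * k)) * q ^ (2 * κ) := by ring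
      _ ≤ q ^ (k - 1) * q ^ (k * (k - 1)) * q * q ^ (2 * κ) := by
          gcongr
          exact (Nat.choose_le_pow N (k - 1)).trans (Nat.pow_le_pow_left hNq _)
      _ = q ^ ((k - 1) + k * (k - 1) + 1 + 2 * κ) := by
          rw [pow_add, pow_add, pow_add, pow_one]
      _ ≤ _ := by
          refine Nat.pow_le_pow_right hq0 ?_
          have h1 : k * (k - 1) + k = k * k := by
            obtain ⟨l, rfl⟩ : ∃ l, k = l + 1 := ⟨k - 1, by omega⟩
            simp only [Nat.add_sub_cancel]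
            ring
          have h2 : k * (2 * k) ≤ k * N := Nat.mul_le_mul_left _ hN3
          have h3 : k * (2 * k) = k * k + k * k := by ring
          have h4 : 2 * κ ≤ k * k := by nlinarith
          omega
  · calc q.choose (k - 1) ^ k * q ^ k * N.choose k ≤ (q ^ (k - 1)) ^ k * q ^ k * q ^ k := by
          gcongr
          · exact Nat.choose_le_pow q (k - 1)
          · exact (Nat.choose_le_pow N k).trans (Nat.pow_le_pow_left hNq _)
      _ = _ := by
          rw [← pow_mul, ← pow_add, ← pow_add]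
          congr 1
          obtain ⟨l, rfl⟩ : ∃ l, k = l + 1 := ⟨k - 1, by omega⟩
          simp only [Nat.add_sub_cancel]
          ring
  · refine Nat.pow_le_pow_right hq0 ?_
    rw [mul_comm (k + 1) k]
    exact Nat.mul_le_mul_left _ (by omega)

end Pool.Agent.N547.TG
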