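import Pool.Agent.N554.TG.Stm

/-! TG/RS and BAD (helper547 for helper554). -/

set_option autoImplicit false

open Finset Pool.Agent.N554.TG

namespace Pool.Agent.N547.TG

open Polynomial in
/-- the polynomial with coefficients `z` -/
noncomputable def pol {q k : ℕ} (z : Fin k → ZMod q) : (ZMod q)[X] := ∑ j, C (z j) * X ^ (j : ℕ)

open Polynomial in
lemma eval_pol {q k : ℕ} (z : Fin k → ZMod q) (w : ZMod q) : eval w (pol z) = ev z w := by
  unfold pol ev
  rw [eval_finsetSum]
  simp

open Polynomial in
lemma coeff_pol {q k : ℕ} (z : Fin k → ZMod q) (i : Fin k) : (pol z).coeff (i : ℕ) = z i := by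
  unfold pol
  rw [finsetSum_coeff, Finset.sum_eq_single i]
  · simp
  · intro j _ hj
    rw [coeff_C_mul, coeff_X_pow, if_neg, mul_zero]
    intro h
    exact hj (Fin.ext h.symm)
  · intro h
    exact absurd (mem_univ _) h

open Polynomial in
lemma deg_pol {q k : ℕ} (z : Fin k → ZMod q) : (pol z).natDegree ≤ k - 1 := by
  unfold pol
  refine natDegree_sum_le_of_forall_le _ _ fun j _ => ?_
  exact (natDegree_C_mul_X_pow_le _ _).trans (by have := j.2; omega)

open Polynomial in
theorem t_rs : S_RS := by
  intro q k _ hk hkq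
  refine ⟨fun z hz => ?_, fun R j => (∏ r ∈ R, (X - C r)).coeff (j : ℕ), fun R hR a ha => ?_⟩
  · have hp : pol z ≠ 0 := by
      intro h
      apply hz
      funext i
      rw [← coeff_pol z i, h]
      simp
    have hsub : zeros z ⊆ (pol z).roots.toFinset := by
      intro w hw
      rw [Multiset.mem_toFinset, mem_roots hp, IsRoot.def, eval_pol]
      exact (mem_filter.1 hw).2
    calc (zeros z).card ≤ (pol z).roots.toFinset.card := card_le_card hsub
      _ ≤ Multiset.card (pol z).roots := Multiset.toFinset_card_le _
      _ ≤ (pol z).natDegree := card_roots' _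
      _ ≤ k - 1 := deg_pol z
  · have hdeg : (∏ r ∈ R, (X - C r)).natDegree < k := by
      rw [natDegree_prod_of_monic _ _ fun r _ => monic_X_sub_C r]
      simp only [natDegree_X_sub_C, sum_const, smul_eq_mul, mul_one]
      omega
    have hev : ∀ w, ev (a • fun j : Fin k => (∏ r ∈ R, (X - C r)).coeff (j : ℕ)) w =
        a * ∏ r ∈ R, (w - r) := by
      intro w
      have h1 : eval w (∏ r ∈ R, (X - C r)) = ∏ r ∈ R, (w - r) := by
        rw [eval_prod]
        simp
      have h2 : ∑ i : Fin k, (∏ r ∈ R, (X - C r)).coeff (i : ℕ) * w ^ (i : ℕ) =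
          ∑ i ∈ range k, (∏ r ∈ R, (X - C r)).coeff i * w ^ i :=
        Fin.sum_univ_eq_sum_range (fun i => (∏ r ∈ R, (X - C r)).coeff i * w ^ i) k
      rw [← h1, eval_eq_sum_range' hdeg, ← h2, mul_sum]
      unfold ev
      refine sum_congr rfl fun j _ => ?_
      simp only [Pi.smul_apply, smul_eq_mul]
      ring
    ext w
    unfold zeros
    rw [mem_filter, hev]
    simp only [mem_univ, true_and, mul_eq_zero, ha, false_or, prod_eq_zero_iff, sub_eq_zero]
    constructor
    · rintro ⟨r, hr, rfl⟩
      exact hr
    · intro h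
      exact ⟨w, h, rfl⟩

theorem t_bad : S_BAD := by
  classical
  intro q k N t _ ht htN u
  have hsub : univ.filter (fun v : G q k N => bad t u v) ⊆
      ((univ : Finset (Fin N)).powersetCard (t - 1)).biUnion
        (fun J => Fintype.piFinset (fun i => if i ∈ J then univ else {u i})) := by
    intro v hv
    have hb := (mem_filter.1 hv).2
    have h1 : (dif u v).card ≤ t - 1 := by
      have := hb.2
      omega
    obtain ⟨J, hJ1, -, hJ2⟩ := exists_subsuperset_card_eq (subset_univ (dif u v)) h1
      (by rw [card_univ, Fintype.card_fin]; omega)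
    rw [mem_biUnion]
    refine ⟨J, mem_powersetCard.2 ⟨subset_univ _, hJ2⟩, ?_⟩
    rw [Fintype.mem_piFinset]
    intro i
    split_ifs with hi
    · exact mem_univ _
    · rw [mem_singleton]
      by_contra hne
      apply hi
      apply hJ1
      unfold dif
      rw [mem_filter]
      exact ⟨mem_univ _, fun h => hne h.symm⟩
  refine (card_le_card hsub).trans ?_
  have h1 : ∀ J ∈ (univ : Finset (Fin N)).powersetCard (t - 1),
      (Fintype.piFinset (fun i => if i ∈ J then (univ : Finset (Fin k → ZMod q)) else {u i})).card ≤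
        q ^ (k * (t - 1)) := by
    intro J hJ
    rw [Fintype.card_piFinset]
    have h2 : ∀ i, (if i ∈ J then (univ : Finset (Fin k → ZMod q)) else {u i}).card =
        if i ∈ J then q ^ k else 1 := by
      intro i
      split_ifs
      · rw [card_univ, Fintype.card_fun, ZMod.card, Fintype.card_fin]
      · exact card_singleton _
    rw [prod_congr rfl fun i _ => h2 i, prod_ite]
    simp only [prod_const, one_pow, mul_one]
    have h3 : (univ.filter (fun i => i ∈ J)) = J := by
      ext i
      simp
    rw [h3, (mem_powersetCard.1 hJ).2, ← pow_mul]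
  refine (card_biUnion_le_card_mul _ _ _ h1).trans ?_
  rw [card_powersetCard, card_univ, Fintype.card_fin]

end Pool.Agent.N547.TG
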